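import Pool.Agent.KS6_77.SubN.Main

set_option autoImplicit false

namespace Pool.Agent.Results.MP_5aa89f_gt.NotSubmetaLindelof

open Set Topology

/-- disjoint closed sets lie in disjoint `G_δ` sets -/
def Subnormal (Y : Type) [TopologicalSpace Y] : Prop :=
  ∀ A B : Set Y, IsClosed A → IsClosed B → Disjoint A B →
    ∃ U V : Set Y, IsGδ U ∧ IsGδ V ∧ A ⊆ U ∧ B ⊆ V ∧ Disjoint U V

/-- every open cover has a `σ`-discrete closed refinement -/
def Subparacompact (X : Type) [TopologicalSpace X] : Prop :=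
  ∀ (ι : Type) (U : ι → Set X), (∀ i, IsOpen (U i)) → (⋃ i, U i) = Set.univ →
    ∃ (κ : Type) (F : ℕ → κ → Set X),
      (∀ n k, IsClosed (F n k)) ∧
      (∀ n, ∀ x : X, ∃ W ∈ nhds x, Set.Subsingleton {k : κ | (W ∩ F n k).Nonempty}) ∧
      (⋃ n, ⋃ k, F n k) = Set.univ ∧
      (∀ n k, ∃ i, F n k ⊆ U i)

/-- submeta-Lindelöf (`δθ`-refinable): every open cover has open refinements `V 0, V 1, …`, each
covering the space, such that every point lies in only countably many members of some `V n` -/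
def SubmetaLindelof (X : Type) [TopologicalSpace X] : Prop :=
  ∀ (ι : Type) (U : ι → Set X), (∀ i, IsOpen (U i)) → (⋃ i, U i) = Set.univ →
    ∃ V : ℕ → Set (Set X),
      (∀ n, (∀ W ∈ V n, IsOpen W ∧ ∃ i, W ⊆ U i) ∧ ∀ x, ∃ W ∈ V n, x ∈ W) ∧
      ∀ x, ∃ n, {W | W ∈ V n ∧ x ∈ W}.Countable

/-- **`X × βX` can be subnormal although `X` is neither subparacompact nor even
submeta-Lindelöf**; `X` is locally compact, locally countable, first countable and separable, and
`βX ∖ X` is a single point (so `βX` is the one-point compactification). -/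
theorem result :
    ∃ (X : Type) (_ : TopologicalSpace X), T35Space X ∧ LocallyCompactSpace X ∧
      FirstCountableTopology X ∧ TopologicalSpace.SeparableSpace X ∧
      (∀ p : X, ∃ W : Set X, IsOpen W ∧ p ∈ W ∧ W.Countable) ∧
      (∃ q : StoneCech X, (range (stoneCechUnit : X → StoneCech X))ᶜ = {q}) ∧
      Subnormal (X × StoneCech X) ∧ ¬ Subparacompact X ∧ ¬ SubmetaLindelof X := by
  refine ⟨Pool.Agent.KS6_77.SubN.XX, inferInstance, inferInstance,
    Pool.Agent.Helper102.Ladder.locallyCompact Pool.Agent.Helper102.XSpace.goodX,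
    Pool.Agent.KS6_77.SubN.first_countable, Pool.Agent.KS6_77.SubN.separable,
    Pool.Agent.KS6_77.SubN.loc_countable, Pool.Agent.KS6_77.SubN.remainder,
    Pool.Agent.Helper102.SubFinal.subnormal, fun h => ?_, fun h => ?_⟩
  · obtain ⟨ι, U, h1, h2, h3⟩ := Pool.Agent.Helper102.SubFinal.not_subpara
    exact h3 (h ι U h1 h2)
  · obtain ⟨ι, U, h1, h2, h3⟩ := Pool.Agent.KS6_77.SubN.not_sml
    exact h3 (h ι U h1 h2)

end Pool.Agent.Results.MP_5aa89f_gt.NotSubmetaLindelof
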